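import Pool.Agent.H1.G0.LVR
import Pool.Agent.H21.HB.DGW
import Pool.Agent.H22.G9.Fin
import Pool.Agent.H22.GS.All
import Pool.Agent.H22.GS.Fin
import Pool.Agent.H28.HB.AllA
import Pool.Agent.H28.HB.BS0
import Pool.Agent.H28.HB.OFF
import Pool.Agent.H28.HB.RND
import Pool.Agent.H28.HB.STP
import Pool.Agent.H3.HB.Bsr
import Pool.Agent.H39.G0.ONR
import Pool.Agent.H56.HB.XFR
import Pool.Agent.H56.HB.XRO
import Pool.Agent.H6.G9.GH0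
import Pool.Agent.H63.G0.UBR
import Pool.Agent.H72.G0.UXR
import Pool.Agent.H81.G0.EU1
import Pool.Agent.H81.GS.LVBF
import Pool.Agent.H83.HB.RowsB
import Pool.Agent.H87.HB.BAD
import Pool.Agent.H92.HB.XNR
import Pool.Agent.H93.HB.BLO
import Pool.Agent.H95.G0.U2R

/-!
# Theorem (H0) (MP_c59857_nt): composition
-/

set_option autoImplicit false

namespace Pool.Agent.H22.G0.Fin

theorem aCOVt : Pool.Agent.H22.GS.T_COVt := Pool.Agent.H22.GS.All.aCOV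
theorem aLVAt : Pool.Agent.H22.GS.T_LVAt := Pool.Agent.H22.GS.All.aLVA
theorem aLVBt : Pool.Agent.H22.GS.T_LVBt := Pool.Agent.H22.GS.All.aLVB
theorem aGMD : Pool.Agent.H6.G9.T_GMD := Pool.Agent.H22.G9.Fin.aGMD
theorem aLCF : Pool.Agent.H6.G9.T_LCF := Pool.Agent.H22.G9.Fin.aLCF
theorem aLF0 : Pool.Agent.H6.G9.T_LF0 := Pool.Agent.H22.G9.Fin.aLF0
theorem aLFC : Pool.Agent.H6.G9.T_LFC := Pool.Agent.H22.G9.Fin.aLFC
theorem aNRS : Pool.Agent.H6.G9.T_NRS := Pool.Agent.H22.G9.Fin.aNRS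
theorem aQT : Pool.Agent.H6.G9.T_QT := Pool.Agent.H22.G9.Fin.aQT
theorem aUX1 : Pool.Agent.H6.G9.T_UX1 := Pool.Agent.H22.G9.Fin.aUX1
theorem aBNM : Pool.Agent.H6.GS2.T_BNM := Pool.Agent.H22.GS.Fin.aBNM
theorem aDQG : Pool.Agent.H6.GS2.T_DQG := Pool.Agent.H22.GS.Fin.aDQG
theorem aOPD : Pool.Agent.H6.GS2.T_OPD := Pool.Agent.H22.GS.Fin.aOPD
theorem aPCA : Pool.Agent.H6.GS2.T_PCA := Pool.Agent.H22.GS.Fin.aPCA
theorem aPCS : Pool.Agent.H6.GS2.T_PCS := Pool.Agent.H22.GS.Fin.aPCS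
theorem aSEP : Pool.Agent.H6.GS2.T_SEP := Pool.Agent.H22.GS.Fin.aSEP
theorem aDGW : Pool.Agent.H93.HB.T_DGW := Pool.Agent.H21.HB.pf_DGW
theorem aDPI : Pool.Agent.H28.HB.T_DPI := Pool.Agent.H28.HB.AllA.aDPI
theorem aCHD : Pool.Agent.H28.HB.T_CHD := Pool.Agent.H28.HB.AllA.aCHD
theorem aOFF : Pool.Agent.H93.HB.T_OFF := Pool.Agent.H28.HB.pf_OFF
theorem aRND : Pool.Agent.H93.HB.T_RND := Pool.Agent.H28.HB.pf_RND
theorem aXFR : Pool.Agent.H56.HB.T_XFR := Pool.Agent.H56.HB.XF.pf_XFR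
theorem aUBR : Pool.Agent.H6.G0.T_UBR := Pool.Agent.H63.G0.pf_UBR aLF0
theorem aUXR : Pool.Agent.H6.G0.T_UXR := Pool.Agent.H72.G0.pf_UXR aSEP aOPD aBNM aLFC aLF0 aLCF aNRS aUX1 aUBR
theorem aTLE : Pool.Agent.H93.HB.T_TLE := Pool.Agent.H83.HB.pf_TLE
theorem aNET : Pool.Agent.H93.HB.T_NET := Pool.Agent.H83.HB.pf_NET
theorem aNE0 : Pool.Agent.H93.HB.T_NE0 := Pool.Agent.H83.HB.pf_NE0
theorem aBAD : Pool.Agent.H56.HB.T_BAD := Pool.Agent.H87.HB.pf_BAD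
theorem aXNR : Pool.Agent.H56.HB.T_XNR := Pool.Agent.H92.HB.pf_XNR
theorem aU2R : Pool.Agent.H6.G0.T_U2R := Pool.Agent.H95.G0.pf_U2R aLF0 aUBR
theorem aBS0 : Pool.Agent.H93.HB.T_BS0 := Pool.Agent.H28.HB.pf_BS0 aNE0 aOFF aRND
theorem aSTP : Pool.Agent.H93.HB.T_STP := Pool.Agent.H28.HB.pf_STP aDGW aNET aOFF aRND
theorem aONR : Pool.Agent.H6.G0.T_ONR := Pool.Agent.H39.G0.pf_ONR aUXR aU2R aUBR aSEP aOPD aBNM aPCA aPCS aDQG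
theorem aXRO : Pool.Agent.H56.HB.T_XRO := Pool.Agent.H56.HB.pf_XRO aCOVt aLVAt aLVBt aBAD aXNR aXFR (fun _ _ _ _ x d => Pool.Agent.H81.GS.info_nnT x d)
theorem aBLO : Pool.Agent.H93.HB.T_BLO := Pool.Agent.H93.HB.pf_BLO aXRO aSTP aBS0 aTLE aCHD aDPI
theorem aLVR : Pool.Agent.H6.G0.T_LVR := Pool.Agent.H1.G0.pf_LVR aONR aUBR
theorem aBSR : Pool.Agent.H6.G0.T_BSR := Pool.Agent.H3.HB.pf_BSR aBLO aUBR aNRS
theorem aEU1 : Pool.Agent.H6.G9.T_EU1 := Pool.Agent.H81.G0.pf_EU1 aLVR aBSR aGMD aUBR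
theorem aGH0 : Pool.Agent.H6.G9.T_GH0 := Pool.Agent.H6.G9.pf_GH0 aEU1 aQT

/-- theorem (H0): the 99 per cent form with absolute constants for all lengths -/
theorem gh0 : Pool.Agent.H6.G9.T_GH0 := aGH0

end Pool.Agent.H22.G0.Fin
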